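import Mathlib

/-!
# Extending subrings without meeting finitely many primes
-/

set_option autoImplicit false
set_option linter.unusedVariables false
set_option linter.unusedSectionVars false

universe u

namespace Pool.Agent.TH188.RL

open Cardinal Polynomial

/-- Avoiding small sets modulo finitely many primes. -/
theorem avoid {R : Type u} [CommRing R] (n : ℕ) : ∀ (Ps : Finset (Ideal R)), Ps.card = n →
    (∀ P ∈ Ps, P.IsPrime) → ∀ (B : (P : Ideal R) → Set (R ⧸ P)), (∀ P ∈ Ps, #(B P) < #(R ⧸ P)) →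
    ∃ c : R, ∀ P ∈ Ps, Ideal.Quotient.mk P c ∉ B P := by
  classical
  induction n with
  | zero =>
    intro Ps hPs _ B _
    rw [Finset.card_eq_zero] at hPs
    exact ⟨0, fun P hP => absurd hP (by rw [hPs]; exact Finset.notMem_empty P)⟩
  | succ n ih =>
    intro Ps hcard hprime B hB
    have hne : Ps.Nonempty := Finset.card_pos.1 (by omega)
    obtain ⟨P, hPmem, hPmin⟩ := Ps.exists_minimal hne
    have hP := hprime P hPmem
    obtain ⟨c₀, hc₀⟩ := ih (Ps.erase P) (by rw [Finset.card_erase_of_mem hPmem]; omega)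
      (fun Q hQ => hprime Q (Finset.mem_of_mem_erase hQ)) B
      (fun Q hQ => hB Q (Finset.mem_of_mem_erase hQ))
    have hinf : ¬ ((Ps.erase P).inf id ≤ P) := by
      rw [hP.inf_le']
      rintro ⟨Q, hQ, hQP⟩
      have h1 : P ≤ Q := hPmin (Finset.mem_of_mem_erase hQ) hQP
      exact (Finset.ne_of_mem_erase hQ) (le_antisymm hQP h1)
    obtain ⟨e, he, heP⟩ := SetLike.not_le_iff_exists.1 hinf
    have heQ : ∀ Q ∈ Ps.erase P, e ∈ Q := fun Q hQ => (Finset.inf_le (f := id) hQ) he
    have he0 : Ideal.Quotient.mk P e ≠ 0 := fun h => heP (Ideal.Quotient.eq_zero_iff_mem.1 h)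
    let f : R ⧸ P → R ⧸ P := fun z => Ideal.Quotient.mk P c₀ + Ideal.Quotient.mk P e * z
    have hf : Function.Injective f := by
      intro z z' h
      exact mul_left_cancel₀ he0 (add_left_cancel h)
    obtain ⟨z, hz⟩ : ∃ z, f z ∉ B P := by
      by_contra hcon
      push Not at hcon
      have h1 : #(R ⧸ P) ≤ #(B P) := mk_le_of_injective (f := fun z => (⟨f z, hcon z⟩ : B P))
        fun a b h => hf (congrArg Subtype.val h)
      exact absurd (hB P hPmem) (not_lt.2 h1)
    obtain ⟨w, rfl⟩ := Ideal.Quotient.mk_surjective z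
    refine ⟨c₀ + e * w, fun Q hQ => ?_⟩
    by_cases hQP : Q = P
    · subst hQP
      rw [map_add, map_mul]
      exact hz
    · have hQ' : Q ∈ Ps.erase P := Finset.mem_erase.2 ⟨hQP, hQ⟩
      rw [map_add, map_mul, Ideal.Quotient.eq_zero_iff_mem.2 (heQ Q hQ'), zero_mul, add_zero]
      exact hc₀ Q hQ'

/-- The elements which are algebraic over a small subring. -/
theorem card_alg {D A : Type u} [CommRing D] [CommRing A] [IsDomain A] (φ : D →+* A)
    (hφ : Function.Injective φ) :
    #{z : A | ∃ f : D[X], f ≠ 0 ∧ f.eval₂ φ z = 0} ≤ max #D ℵ₀ := by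
  let _ : Algebra D A := φ.toAlgebra
  have : IsDomain D := hφ.isDomain φ
  have : FaithfulSMul D A := (faithfulSMul_iff_algebraMap_injective D A).2 hφ
  have : Module.IsTorsionFree D A := inferInstance
  exact Algebraic.cardinalMk_le_max D A

/-- The subring generated by `S` meets the primes in zero. -/
def Good {R : Type u} [CommRing R] (Ps : Finset (Ideal R)) (S : Set R) : Prop :=
  ∀ P ∈ Ps, ∀ x ∈ Subring.closure S, x ∈ P → x = 0

lemma card_closure {R : Type u} [CommRing R] (S : Set R) : #(Subring.closure S) ≤ max #S ℵ₀ := by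
  have h1 := Algebra.lift_cardinalMk_adjoin_le ℤ S
  have h2 : #(Algebra.adjoin ℤ S) = #(Subring.closure S) := by
    rw [Algebra.adjoin_int]
    rfl
  rw [h2] at h1
  simp only [lift_id'.{0, u}, mk_int, lift_aleph0] at h1
  refine h1.trans ?_
  rw [max_comm #S]
  simp

theorem extend {R : Type u} [CommRing R] [Nontrivial R] {Ps : Finset (Ideal R)}
    (hPs : ∀ P ∈ Ps, P.IsPrime) {S : Set R} (hS : Good Ps S)
    (hunc : ∀ P ∈ Ps, ℵ₀ < #(R ⧸ P)) (hSc : ∀ P ∈ Ps, #S < #(R ⧸ P)) (r s : R)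
    (hs : ∀ P ∈ Ps, s ∉ P) :
    ∃ u, (∃ c, u = r + s * c) ∧ (∀ P ∈ Ps, u ∉ P) ∧ Good Ps (insert u S) := by
  classical
  set D := Subring.closure S with hD
  let φ : (P : Ideal R) → D →+* R ⧸ P := fun P => (Ideal.Quotient.mk P).comp D.subtype
  have hφ : ∀ P ∈ Ps, Function.Injective (φ P) := by
    intro P hP
    rw [injective_iff_map_eq_zero]
    intro x hx
    exact Subtype.ext (hS P hP x x.2 (Ideal.Quotient.eq_zero_iff_mem.1 hx))
  let alg : (P : Ideal R) → Set (R ⧸ P) := fun P => {z | ∃ f : D[X], f ≠ 0 ∧ f.eval₂ (φ P) z = 0}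
  have halg : ∀ P ∈ Ps, #(alg P) < #(R ⧸ P) := by
    intro P hP
    have hPp := hPs P hP
    refine (card_alg (φ P) (hφ P hP)).trans_lt ?_
    exact max_lt ((card_closure S).trans_lt (max_lt (hSc P hP) (hunc P hP))) (hunc P hP)
  let g : (P : Ideal R) → R ⧸ P → R ⧸ P := fun P z =>
    Ideal.Quotient.mk P r + Ideal.Quotient.mk P s * z
  obtain ⟨c, hc⟩ := avoid Ps.card Ps rfl hPs (fun P => g P ⁻¹' alg P) (by
    intro P hP
    have hPp := hPs P hP
    have hs0 : Ideal.Quotient.mk P s ≠ 0 := fun h => hs P hP (Ideal.Quotient.eq_zero_iff_mem.1 h)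
    have hg : Function.Injective (g P) := fun z z' h => mul_left_cancel₀ hs0 (add_left_cancel h)
    exact (mk_preimage_of_injective _ _ hg).trans_lt (halg P hP))
  have hc' : ∀ P ∈ Ps, Ideal.Quotient.mk P (r + s * c) ∉ alg P := by
    intro P hP h
    refine hc P hP ?_
    change g P _ ∈ alg P
    change Ideal.Quotient.mk P r + Ideal.Quotient.mk P s * Ideal.Quotient.mk P c ∈ alg P
    rwa [← map_mul, ← map_add]
  refine ⟨r + s * c, ⟨c, rfl⟩, fun P hP h => ?_, fun P hP x hx hxP => ?_⟩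
  · refine hc' P hP ⟨X, X_ne_zero, ?_⟩
    rw [eval₂_X]
    exact Ideal.Quotient.eq_zero_iff_mem.2 h
  · have hle : Subring.closure (insert (r + s * c) S) ≤
        (eval₂RingHom D.subtype (r + s * c)).range := by
      rw [Subring.closure_le]
      rintro z (rfl | hz)
      · exact ⟨X, by simp⟩
      · exact ⟨C ⟨z, Subring.subset_closure hz⟩, by simp⟩
    obtain ⟨f, rfl⟩ := hle hx
    by_contra hne
    refine hc' P hP ⟨f, ?_, ?_⟩
    · rintro rfl
      exact hne (by simp)
    · have h1 : Ideal.Quotient.mk P (eval₂RingHom D.subtype (r + s * c) f) = 0 :=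
        Ideal.Quotient.eq_zero_iff_mem.2 hxP
      rw [coe_eval₂RingHom, hom_eval₂] at h1
      exact h1

end Pool.Agent.TH188.RL
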