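import Pool.Agent.TH188.RL.A1

/-!
# The transfinite construction
-/

set_option autoImplicit false
set_option linter.unusedVariables false
set_option linter.unusedSectionVars false

universe u

namespace Pool.Agent.TH188.RL

open Cardinal Set

/-- The subring generated by a directed union. -/
theorem mem_closure_dir {R : Type u} [CommRing R] {𝒜 : Set (Set R)} (hne : 𝒜.Nonempty)
    (hdir : ∀ A ∈ 𝒜, ∀ B ∈ 𝒜, ∃ C ∈ 𝒜, A ⊆ C ∧ B ⊆ C) {S : Set R}
    (hS : ∀ x ∈ S, ∃ A ∈ 𝒜, x ∈ A) {x : R} (hx : x ∈ Subring.closure S) :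
    ∃ A ∈ 𝒜, x ∈ Subring.closure A := by
  obtain ⟨A₀, hA₀⟩ := hne
  induction hx using Subring.closure_induction with
  | mem x hx =>
    obtain ⟨A, hA, hxA⟩ := hS x hx
    exact ⟨A, hA, Subring.subset_closure hxA⟩
  | zero => exact ⟨A₀, hA₀, Subring.zero_mem _⟩
  | one => exact ⟨A₀, hA₀, Subring.one_mem _⟩
  | add x y _ _ h1 h2 =>
    obtain ⟨A, hA, hx⟩ := h1
    obtain ⟨B, hB, hy⟩ := h2
    obtain ⟨C, hC, hAC, hBC⟩ := hdir A hA B hB
    exact ⟨C, hC, Subring.add_mem _ (Subring.closure_mono hAC hx) (Subring.closure_mono hBC hy)⟩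
  | neg x _ h1 =>
    obtain ⟨A, hA, hx⟩ := h1
    exact ⟨A, hA, Subring.neg_mem _ hx⟩
  | mul x y _ _ h1 h2 =>
    obtain ⟨A, hA, hx⟩ := h1
    obtain ⟨B, hB, hy⟩ := h2
    obtain ⟨C, hC, hAC, hBC⟩ := hdir A hA B hB
    exact ⟨C, hC, Subring.mul_mem _ (Subring.closure_mono hAC hx) (Subring.closure_mono hBC hy)⟩

theorem exists_seq {R : Type u} [CommRing R] [Nontrivial R] {Ps : Finset (Ideal R)}
    (hPs : ∀ P ∈ Ps, P.IsPrime) (h0 : Good Ps (∅ : Set R)) (hunc : ℵ₀ < #R)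
    (hcard : ∀ P ∈ Ps, #(R ⧸ P) = #R) :
    ∃ S : Set R, Good Ps S ∧ ∀ r s, (∀ P ∈ Ps, s ∉ P) →
      ∃ u ∈ S, (∃ c, u = r + s * c) ∧ ∀ P ∈ Ps, u ∉ P := by
  classical
  let ι := (#R).ord.ToType
  let β := R × {s : R // ∀ P ∈ Ps, s ∉ P}
  have hone : ∀ P ∈ Ps, (1 : R) ∉ P := fun P hP h =>
    (hPs P hP).ne_top ((Ideal.eq_top_iff_one P).2 h)
  have hβ : #β ≤ #ι := by
    rw [mk_ord_toType, mk_prod, lift_id, lift_id]
    calc #R * #{s : R // ∀ P ∈ Ps, s ∉ P} ≤ #R * #R := mul_le_mul_right (mk_subtype_le _) _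
      _ = #R := mul_eq_self hunc.le
  have hβne : Nonempty β := ⟨(0, ⟨1, hone⟩)⟩
  obtain ⟨g, hg⟩ : ∃ g : ι → β, Function.Surjective g := by
    obtain ⟨e⟩ := (Cardinal.le_def β ι).1 hβ
    exact ⟨Function.invFun e, Function.invFun_surjective e.injective⟩
  let F : Set R → β → R := fun S b =>
    if h : ∃ u, (∃ c, u = b.1 + (b.2 : R) * c) ∧ (∀ P ∈ Ps, u ∉ P) ∧ Good Ps (insert u S) then
      h.choose else 0
  let u : ι → R := WellFounded.fix (wellFounded_lt (α := ι))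
    (fun i ih => F {x | ∃ j, ∃ h : j < i, x = ih j h} (g i))
  let Si : ι → Set R := fun i => {x | ∃ j, ∃ _ : j < i, x = u j}
  have hu : ∀ i, u i = F (Si i) (g i) := fun i => WellFounded.fix_eq _ _ i
  have hSic : ∀ i, #(Si i) < #R := by
    intro i
    have h1 : Si i ⊆ u '' Iio i := by
      rintro x ⟨j, hj, rfl⟩
      exact ⟨j, hj, rfl⟩
    exact ((mk_le_mk_of_subset h1).trans mk_image_le).trans_lt (mk_Iio_toType_ord_lt i)
  have hA : ∀ i, Good Ps (Si i) → (∃ c, u i = (g i).1 + ((g i).2 : R) * c) ∧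
      (∀ P ∈ Ps, u i ∉ P) ∧ Good Ps (insert (u i) (Si i)) := by
    intro i hi
    have h1 := extend hPs hi (fun P hP => by rw [hcard P hP]; exact hunc)
      (fun P hP => by rw [hcard P hP]; exact hSic i) (g i).1 ((g i).2 : R) (g i).2.2
    have h2 : u i = h1.choose := by
      rw [hu i]
      exact dif_pos h1
    rw [h2]
    exact h1.choose_spec
  have hmono : ∀ j j', j ≤ j' → insert (u j) (Si j) ⊆ insert (u j') (Si j') := by
    intro j j' hjj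
    rcases hjj.eq_or_lt with rfl | hlt
    · exact Subset.rfl
    · rintro x (rfl | ⟨l, hl, rfl⟩)
      · exact Or.inr ⟨j, hlt, rfl⟩
      · exact Or.inr ⟨l, hl.trans hlt, rfl⟩
  -- a general step
  have key : ∀ (J : Set ι), (∀ j ∈ J, Good Ps (Si j)) → Good Ps {x | ∃ j ∈ J, x = u j} := by
    intro J hJ P hP x hx hxP
    let 𝒜 : Set (Set R) := {A | A = ∅ ∨ ∃ j ∈ J, A = insert (u j) (Si j)}
    obtain ⟨A, hA', hxA⟩ := mem_closure_dir (𝒜 := 𝒜) ⟨∅, Or.inl rfl⟩ (by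
      rintro A (rfl | ⟨j, hj, rfl⟩) B (rfl | ⟨l, hl, rfl⟩)
      · exact ⟨∅, Or.inl rfl, Subset.rfl, Subset.rfl⟩
      · exact ⟨_, Or.inr ⟨l, hl, rfl⟩, empty_subset _, Subset.rfl⟩
      · exact ⟨_, Or.inr ⟨j, hj, rfl⟩, Subset.rfl, empty_subset _⟩
      · rcases le_total j l with h | h
        · exact ⟨_, Or.inr ⟨l, hl, rfl⟩, hmono j l h, Subset.rfl⟩
        · exact ⟨_, Or.inr ⟨j, hj, rfl⟩, Subset.rfl, hmono l j h⟩) (by
      rintro x ⟨j, hj, rfl⟩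
      exact ⟨_, Or.inr ⟨j, hj, rfl⟩, Or.inl rfl⟩) hx
    rcases hA' with rfl | ⟨j, hj, rfl⟩
    · exact h0 P hP x hxA hxP
    · exact (hA j (hJ j hj)).2.2 P hP x hxA hxP
  have hgood : ∀ i, Good Ps (Si i) := by
    intro i
    induction i using WellFoundedLT.induction with
    | ind i ih =>
      have h1 := key (Iio i) ih
      have h2 : {x | ∃ j ∈ Iio i, x = u j} = Si i := by
        ext x
        constructor
        · rintro ⟨j, hj, rfl⟩
          exact ⟨j, hj, rfl⟩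
        · rintro ⟨j, hj, rfl⟩
          exact ⟨j, hj, rfl⟩
      rwa [h2] at h1
  refine ⟨{x | ∃ j ∈ (univ : Set ι), x = u j}, key univ fun j _ => hgood j, fun r s hs => ?_⟩
  obtain ⟨i, hi⟩ := hg (r, ⟨s, hs⟩)
  obtain ⟨h1, h2, -⟩ := hA i (hgood i)
  rw [hi] at h1
  exact ⟨u i, ⟨i, mem_univ i, rfl⟩, h1, h2⟩

end Pool.Agent.TH188.RL
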