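import Pool.Agent.TH188.RL.A2

/-!
# Subrings with the same lattice of regular ideals
-/

set_option autoImplicit false
set_option linter.unusedVariables false
set_option linter.unusedSectionVars false

universe u v

namespace Pool.Agent.TH188.RL

open Cardinal

/-- The ideals which are zero or contain a regular element. -/
abbrev Lr (R : Type u) [CommRing R] : Type u :=
  {J : Ideal R // J = ⊥ ∨ ∃ x ∈ J, x ∈ nonZeroDivisors R}

/-- The lattice `Lr R` is isomorphic to the lattice of ideals of `D`. -/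
def Iso (R : Type u) (D : Type v) [CommRing R] [CommRing D] : Prop :=
  ∃ e : Ideal D ≃o Lr R, ∀ I J : Ideal D, (e (I * J) : Ideal R) = (e I : Ideal R) * (e J : Ideal R)

/-- The conditions on the subring. -/
structure Cond {R : Type u} [CommRing R] (D : Subring R) : Prop where
  reg : ∀ x ∈ D, x ≠ 0 → x ∈ nonZeroDivisors R
  sur : ∀ r : R, ∀ s ∈ nonZeroDivisors R, ∃ u ∈ D, ∃ c, u = r + s * c
  meet : ∀ s ∈ nonZeroDivisors R, ∃ u ∈ D, u ≠ 0 ∧ ∃ c, u = s * c
  div : ∀ d ∈ D, d ≠ 0 → ∀ s, d * s ∈ D → s ∈ D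

theorem Cond.isDomain {R : Type u} [CommRing R] [Nontrivial R] {D : Subring R} (h : Cond D) :
    IsDomain D := by
  have h1 : NoZeroDivisors D := by
    constructor
    intro a b hab
    by_cases ha : a = 0
    · exact Or.inl ha
    · right
      have h2 : (a : R) ≠ 0 := fun h => ha (Subtype.ext h)
      have h3 := h.reg a a.2 h2
      have h4 : (b : R) * (a : R) = 0 := by
        rw [mul_comm]
        exact congrArg Subtype.val hab
      exact Subtype.ext ((mem_nonZeroDivisors_iff_right.1 h3) _ h4)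
  exact NoZeroDivisors.to_isDomain D

theorem Cond.map_comap {R : Type u} [CommRing R] {D : Subring R} (h : Cond D) {J : Ideal R}
    (hJ : J = ⊥ ∨ ∃ x ∈ J, x ∈ nonZeroDivisors R) :
    (J.comap D.subtype).map D.subtype = J := by
  rcases hJ with rfl | ⟨s, hsJ, hs⟩
  · rw [eq_bot_iff, Ideal.map_le_iff_le_comap]
  · apply le_antisymm Ideal.map_comap_le
    intro x hx
    obtain ⟨u, huD, hu0, c, rfl⟩ := h.meet s hs
    have huJ : s * c ∈ J := J.mul_mem_right _ hsJ
    obtain ⟨v, hv, c', hvc⟩ := h.sur x (s * c) (h.reg _ huD hu0)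
    have hvJ : v ∈ J := by
      rw [hvc]
      exact J.add_mem hx (J.mul_mem_right _ huJ)
    have h1 : x = v - c' * (s * c) := by rw [hvc]; ring
    rw [h1]
    refine Ideal.sub_mem _ ?_ (Ideal.mul_mem_left _ _ ?_)
    · exact Ideal.mem_map_of_mem D.subtype (show (⟨v, hv⟩ : D) ∈ J.comap D.subtype from hvJ)
    · exact Ideal.mem_map_of_mem D.subtype
        (show (⟨s * c, huD⟩ : D) ∈ J.comap D.subtype from huJ)

theorem Cond.comap_map {R : Type u} [CommRing R] {D : Subring R} (h : Cond D) (I : Ideal D) :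
    (I.map D.subtype).comap D.subtype = I := by
  by_cases hI : I = ⊥
  · rw [hI, Ideal.map_bot]
    ext x
    rw [Ideal.mem_comap, Ideal.mem_bot, Ideal.mem_bot]
    exact ⟨fun h => Subtype.ext h, fun h => by rw [h, map_zero]⟩
  · obtain ⟨d, hdI, hd0⟩ := Submodule.exists_mem_ne_zero_of_ne_bot hI
    have hd0' : (d : R) ≠ 0 := fun h => hd0 (Subtype.ext h)
    refine le_antisymm ?_ Ideal.le_comap_map
    intro x hx
    have key : ∀ y ∈ I.map D.subtype, ∃ i ∈ I, ∃ c : R, y = (i : R) + d * c := by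
      intro y hy
      refine Submodule.span_induction (p := fun y _ => ∃ i ∈ I, ∃ c : R, y = (i : R) + d * c)
        ?_ ?_ ?_ ?_ hy
      · rintro _ ⟨i, hi, rfl⟩
        exact ⟨i, hi, 0, by rw [mul_zero, add_zero]; rfl⟩
      · exact ⟨0, I.zero_mem, 0, by simp⟩
      · rintro y z _ _ ⟨i, hi, c, rfl⟩ ⟨j, hj, c', rfl⟩
        exact ⟨i + j, I.add_mem hi hj, c + c', by rw [Subring.coe_add]; ring⟩
      · rintro r y _ ⟨i, hi, c, rfl⟩
        obtain ⟨v, hv, c', hvc⟩ := h.sur r d (h.reg _ d.2 hd0')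
        refine ⟨⟨v, hv⟩ * i, I.mul_mem_left _ hi, r * c - c' * i, ?_⟩
        rw [smul_eq_mul]
        change r * ((i : R) + d * c) = v * (i : R) + d * (r * c - c' * i)
        rw [hvc]
        ring
    obtain ⟨i, hi, c, hxc⟩ := key _ hx
    change (x : R) = i + d * c at hxc
    have h1 : (d : R) * c ∈ D := by
      have h2 : (d : R) * c = x - i := by rw [hxc]; ring
      rw [h2]
      exact D.sub_mem x.2 i.2
    have h2 := h.div d d.2 hd0' c h1
    have h3 : x = i + d * ⟨c, h2⟩ := Subtype.ext hxc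
    rw [h3]
    exact I.add_mem hi (I.mul_mem_right _ hdI)

theorem Cond.iso {R : Type u} [CommRing R] {D : Subring R} (h : Cond D) : Iso R D := by
  have hmap : ∀ I : Ideal D, I.map D.subtype = ⊥ ∨
      ∃ x ∈ I.map D.subtype, x ∈ nonZeroDivisors R := by
    intro I
    by_cases hI : I = ⊥
    · left
      rw [hI, Ideal.map_bot]
    · right
      obtain ⟨d, hdI, hd0⟩ := Submodule.exists_mem_ne_zero_of_ne_bot hI
      exact ⟨d, Ideal.mem_map_of_mem D.subtype hdI, h.reg _ d.2 fun h => hd0 (Subtype.ext h)⟩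
  let e : Ideal D ≃o Lr R :=
    { toFun := fun I => ⟨I.map D.subtype, hmap I⟩
      invFun := fun J => J.1.comap D.subtype
      left_inv := fun I => h.comap_map I
      right_inv := fun J => Subtype.ext (h.map_comap J.2)
      map_rel_iff' := by
        intro I J
        constructor
        · intro hIJ
          have h1 : I.map D.subtype ≤ J.map D.subtype := hIJ
          rw [← h.comap_map I, ← h.comap_map J]
          exact Ideal.comap_mono h1
        · intro hIJ
          exact Ideal.map_mono hIJ }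
  exact ⟨e, fun I J => Ideal.map_mul D.subtype I J⟩

/-- The subring. -/
theorem exists_cond {R : Type u} [CommRing R] [Nontrivial R] {Ps : Finset (Ideal R)}
    (hPs : ∀ P ∈ Ps, P.IsPrime) (hZ : ∀ x : R, x ∉ nonZeroDivisors R ↔ ∃ P ∈ Ps, x ∈ P)
    (hunc : ℵ₀ < #R) (hcard : ∀ P ∈ Ps, #(R ⧸ P) = #R)
    (hint : ∀ m : ℤ, (m : R) ∉ nonZeroDivisors R → (m : R) = 0) :
    ∃ D : Subring R, Cond D := by
  have hZ' : ∀ x : R, x ∈ nonZeroDivisors R ↔ ∀ P ∈ Ps, x ∉ P := by
    intro x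
    constructor
    · intro hx P hP hxP
      exact (hZ x).2 ⟨P, hP, hxP⟩ hx
    · intro h
      by_contra hcon
      obtain ⟨P, hP, hxP⟩ := (hZ x).1 hcon
      exact h P hP hxP
  have h0 : Good Ps (∅ : Set R) := by
    intro P hP x hx hxP
    rw [Subring.closure_empty, Subring.mem_bot] at hx
    obtain ⟨m, rfl⟩ := hx
    exact hint m ((hZ _).2 ⟨P, hP, hxP⟩)
  obtain ⟨S, hS, hu⟩ := exists_seq hPs h0 hunc hcard
  set D₀ := Subring.closure S with hD₀
  obtain ⟨P₀, hP₀, -⟩ := (hZ 0).1 zero_notMem_nonZeroDivisors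
  have hreg : ∀ x ∈ D₀, x ≠ 0 → x ∈ nonZeroDivisors R := by
    intro x hx hx0
    rw [hZ']
    exact fun P hP hxP => hx0 (hS P hP x hx hxP)
  have hne : ∀ {a b : R}, a ∈ D₀ → a ≠ 0 → b ≠ 0 → a * b ≠ 0 := by
    intro a b ha ha0 hb0 hab
    rw [mul_comm] at hab
    exact hb0 ((mem_nonZeroDivisors_iff_right.1 (hreg a ha ha0)) _ hab)
  let D : Subring R :=
    { carrier := {x | ∃ d ∈ D₀, d ≠ 0 ∧ d * x ∈ D₀}
      mul_mem' := by
        rintro x y ⟨a, ha, ha0, hax⟩ ⟨b, hb, hb0, hby⟩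
        refine ⟨a * b, D₀.mul_mem ha hb, hne ha ha0 hb0, ?_⟩
        have h1 : a * b * (x * y) = a * x * (b * y) := by ring
        rw [h1]
        exact D₀.mul_mem hax hby
      one_mem' := ⟨1, D₀.one_mem, one_ne_zero, by rw [mul_one]; exact D₀.one_mem⟩
      add_mem' := by
        rintro x y ⟨a, ha, ha0, hax⟩ ⟨b, hb, hb0, hby⟩
        refine ⟨a * b, D₀.mul_mem ha hb, hne ha ha0 hb0, ?_⟩
        have h1 : a * b * (x + y) = b * (a * x) + a * (b * y) := by ring
        rw [h1]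
        exact D₀.add_mem (D₀.mul_mem hb hax) (D₀.mul_mem ha hby)
      zero_mem' := ⟨1, D₀.one_mem, one_ne_zero, by rw [mul_zero]; exact D₀.zero_mem⟩
      neg_mem' := by
        rintro x ⟨a, ha, ha0, hax⟩
        refine ⟨a, ha, ha0, ?_⟩
        rw [mul_neg]
        exact D₀.neg_mem hax }
  have hle : ∀ x ∈ D₀, x ∈ D := fun x hx => ⟨1, D₀.one_mem, one_ne_zero, by rwa [one_mul]⟩
  refine ⟨D, ?_, ?_, ?_, ?_⟩
  · rintro x ⟨d, hd, hd0, hdx⟩ hx0
    have h1 := hreg _ hdx (hne hd hd0 hx0)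
    rw [mul_comm] at h1
    rw [mem_nonZeroDivisors_iff_right] at h1 ⊢
    intro z hz
    exact h1 z (by rw [← mul_assoc, hz, zero_mul])
  · intro r s hs
    obtain ⟨u, huS, hc, -⟩ := hu r s ((hZ' s).1 hs)
    exact ⟨u, hle u (Subring.subset_closure huS), hc⟩
  · intro s hs
    obtain ⟨u, huS, ⟨c, hc⟩, huP⟩ := hu 0 s ((hZ' s).1 hs)
    refine ⟨u, hle u (Subring.subset_closure huS), ?_, c, by rw [hc, zero_add]⟩
    rintro rfl
    exact huP P₀ hP₀ P₀.zero_mem
  · rintro d ⟨a, ha, ha0, had⟩ hd0 s ⟨b, hb, hb0, hbs⟩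
    refine ⟨b * (a * d), D₀.mul_mem hb had, hne hb hb0 (hne ha ha0 hd0), ?_⟩
    have h1 : b * (a * d) * s = a * (b * (d * s)) := by ring
    rw [h1]
    exact D₀.mul_mem ha hbs

end Pool.Agent.TH188.RL
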